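import Pool.Agent.ATZ.Stmts1
import Pool.Agent.Helper95_AT8.AVB
import Pool.Agent.Helper77_ATZ.UWA

/-!
# Squad ATZ, row AVZ: the average over `W = Z ^ (ℓ ^ k)`
-/

set_option autoImplicit false
set_option linter.unusedSectionVars false
set_option linter.style.haveILetI false

open scoped BigOperators

noncomputable section

namespace Pool.Agent.PP.TB.H31

open Pool.Agent.Helper51_AWC Pool.Agent.Helper79_WRA Pool.Agent.PP Pool.Agent.PP.KF
open Pool.Agent.PP.K9 Pool.Agent.PP.K9.H97 Pool.Agent.PP.H75 Pool.Agent.PP.T3 Pool.Agent.PP.T2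
open Pool.Agent.PP.T5

attribute [local instance] Ideal.Quotient.field

section orb

variable {X : Type} [CommGroup X] [Finite X] {ℓ : ℕ}

/-- `y` is a power of `x` with exponent `1` modulo `ℓ ^ e` -/
def Rl (q : ℕ) (x y : X) : Prop := ∃ j, j ≡ 1 [MOD q] ∧ y = x ^ j

theorem cop_of {e j : ℕ} (he : 0 < e) (hj : j ≡ 1 [MOD ℓ ^ e]) :
    Nat.Coprime j ℓ := by
  have h1 : j ≡ 1 [MOD ℓ] := hj.of_dvd (dvd_pow_self ℓ he.ne')
  have h2 : Nat.gcd j ℓ = Nat.gcd 1 ℓ := Nat.ModEq.gcd_eq h1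
  rw [Nat.Coprime, h2, Nat.gcd_one_left]

theorem Rl_symm (hℓ : ℓ.Prime) {E e : ℕ} (he : 0 < e) (heE : e ≤ E)
    (hE : ∀ x : X, x ^ ℓ ^ E = 1) {x y : X} (h : Rl (ℓ ^ e) x y) : Rl (ℓ ^ e) y x := by
  obtain ⟨j, hj, rfl⟩ := h
  have hc : Nat.Coprime j ℓ := cop_of he hj
  have hE0 : 0 < E := by omega
  have hc2 : Nat.Coprime j (ℓ ^ E) := hc.pow_right E
  have h1 : 1 < ℓ ^ E := Nat.one_lt_pow hE0.ne' hℓ.one_lt
  obtain ⟨m, -, hm⟩ := Nat.exists_mul_mod_eq_one_of_coprime hc2 h1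
  refine ⟨m, ?_, ?_⟩
  · have h2 : j * m ≡ 1 [MOD ℓ ^ E] := by
      rw [Nat.ModEq, hm, Nat.mod_eq_of_lt h1]
    have h3 : j * m ≡ 1 [MOD ℓ ^ e] := h2.of_dvd (pow_dvd_pow ℓ heE)
    have h4 : j * m ≡ 1 * m [MOD ℓ ^ e] := hj.mul_right m
    rw [one_mul] at h4
    exact h4.symm.trans h3
  · rw [← pow_mul, ← Nat.div_add_mod (j * m) (ℓ ^ E), hm, pow_add, pow_mul, hE, one_pow, one_mul,
      pow_one]

theorem Rl_trans {q : ℕ} {x y z : X} (h : Rl q x y) (h' : Rl q y z) : Rl q x z := by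
  obtain ⟨j, hj, rfl⟩ := h
  obtain ⟨j', hj', rfl⟩ := h'
  exact ⟨j * j', by simpa using hj.mul hj', by rw [pow_mul]⟩

/-- the number of the powers of `x` with exponents `1` modulo `ℓ ^ e` -/
theorem card_Rl [Fintype X] [DecidableEq X] (hℓ : ℓ.Prime) {e : ℕ} (he : 0 < e) {x : X} {m : ℕ}
    (hm : orderOf x = ℓ ^ m) [DecidablePred (Rl (ℓ ^ e) x)] :
    (Finset.univ.filter (fun y : X => Rl (ℓ ^ e) x y)).card = ℓ ^ (m - e) := by
  have hle1 : 1 < ℓ ^ e := Nat.one_lt_pow he.ne' hℓ.one_lt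
  have h1 : Finset.univ.filter (fun y : X => Rl (ℓ ^ e) x y) =
      (Finset.range (ℓ ^ (m - e))).image (fun i => x ^ (1 + ℓ ^ e * i)) := by
    ext y
    simp only [Finset.mem_filter, Finset.mem_univ, true_and, Finset.mem_image, Finset.mem_range]
    constructor
    · rintro ⟨j, hj, rfl⟩
      refine ⟨(j / ℓ ^ e) % ℓ ^ (m - e), Nat.mod_lt _ (pow_pos hℓ.pos _), ?_⟩
      rw [pow_eq_pow_iff_modEq, hm]
      have h2 : j % ℓ ^ e = 1 := by
        rw [hj, Nat.mod_eq_of_lt hle1]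
      have h3 : 1 + ℓ ^ e * (j / ℓ ^ e) = j := by
        have := Nat.div_add_mod j (ℓ ^ e)
        omega
      have h4 : ℓ ^ e * (j / ℓ ^ e % ℓ ^ (m - e)) ≡ ℓ ^ e * (j / ℓ ^ e) [MOD ℓ ^ m] := by
        have h6 := Nat.ModEq.mul_left' (ℓ ^ e) (Nat.mod_modEq (j / ℓ ^ e) (ℓ ^ (m - e)))
        rw [← pow_add] at h6
        exact h6.of_dvd (pow_dvd_pow ℓ (by omega))
      have h5 := h4.add_left 1
      rw [h3] at h5
      exact h5
    · rintro ⟨i, -, rfl⟩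
      exact ⟨1 + ℓ ^ e * i, by simp [Nat.ModEq], rfl⟩
  rw [h1, Finset.card_image_of_injOn, Finset.card_range]
  intro i hi i' hi' h
  simp only at h
  rw [pow_eq_pow_iff_modEq, hm] at h
  have hi2 := Finset.mem_range.1 hi
  have hi2' := Finset.mem_range.1 hi'
  by_cases hme : m < e
  · have h0 : m - e = 0 := by omega
    rw [h0, pow_zero] at hi2 hi2'
    omega
  · have h2 : ℓ ^ e * i ≡ ℓ ^ e * i' [MOD ℓ ^ e * ℓ ^ (m - e)] := by
      have h7 := Nat.ModEq.add_left_cancel' 1 h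
      rw [← pow_add]
      have h8 : e + (m - e) = m := by omega
      rw [h8]
      exact h7
    have h3 : i ≡ i' [MOD ℓ ^ (m - e)] :=
      Nat.ModEq.mul_left_cancel' (pow_ne_zero _ hℓ.ne_zero) h2
    rw [Nat.ModEq, Nat.mod_eq_of_lt hi2, Nat.mod_eq_of_lt hi2'] at h3
    exact h3

/-- The sum over the elements which are not killed by `ℓ ^ k` is divisible by
`ℓ ^ (k + 1 - e)`. -/
theorem orb [Fintype X] [DecidableEq X] (R : Subring ℂ) (hℓ : ℓ.Prime) {E e : ℕ} (he : 0 < e)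
    (heE : e ≤ E) (hE : ∀ x : X, x ^ ℓ ^ E = 1) (g : X → ℂ) (hg : ∀ x, g x ∈ R)
    (hj : ∀ x : X, ∀ j, j ≡ 1 [MOD ℓ ^ e] → g (x ^ j) = g x) (k : ℕ) :
    ∃ r ∈ R, ∑ x ∈ Finset.univ.filter (fun x : X => x ^ ℓ ^ k ≠ 1), g x =
      (ℓ : ℂ) ^ (k + 1 - e) * r := by
  classical
  let S : Setoid X :=
    { r := Rl (ℓ ^ e)
      iseqv := ⟨fun x => ⟨1, rfl, (pow_one x).symm⟩, fun h => Rl_symm hℓ he heE hE h,
        fun h h' => Rl_trans h h'⟩ }
  set s : Finset X := Finset.univ.filter (fun x : X => x ^ ℓ ^ k ≠ 1) with hs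
  have key : ∀ x0 ∈ s, ∃ r ∈ R, ∑ y ∈ s.filter (fun y => Quotient.mk S y = Quotient.mk S x0), g y =
      (ℓ : ℂ) ^ (k + 1 - e) * r := by
    intro x0 hx0
    have hx1 : x0 ^ ℓ ^ k ≠ 1 := (Finset.mem_filter.1 hx0).2
    obtain ⟨m, hm1, hm2⟩ := (Nat.dvd_prime_pow hℓ).1 (orderOf_dvd_of_pow_eq_one (hE x0))
    have hkm : k < m := by
      by_contra h
      push Not at h
      apply hx1
      rw [← orderOf_dvd_iff_pow_eq_one, hm2]
      exact pow_dvd_pow ℓ h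
    have h1 : s.filter (fun y => Quotient.mk S y = Quotient.mk S x0) =
        Finset.univ.filter (fun y : X => Rl (ℓ ^ e) x0 y) := by
      ext y
      simp only [hs, Finset.mem_filter, Finset.mem_univ, true_and]
      constructor
      · rintro ⟨-, h⟩
        exact Rl_symm hℓ he heE hE (Quotient.exact h)
      · intro h
        refine ⟨fun h0 => hx1 ?_, Quotient.sound (Rl_symm hℓ he heE hE h)⟩
        obtain ⟨j, -, h2⟩ := Rl_symm hℓ he heE hE h
        rw [h2, ← pow_mul, mul_comm, pow_mul, h0, one_pow]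
    refine ⟨(ℓ : ℂ) ^ ((m - e) - (k + 1 - e)) * g x0,
      R.mul_mem (R.pow_mem (natCast_mem R ℓ) _) (hg x0), ?_⟩
    rw [h1]
    have h2 : ∀ y ∈ Finset.univ.filter (fun y : X => Rl (ℓ ^ e) x0 y), g y = g x0 := by
      intro y hy
      obtain ⟨j, hj1, rfl⟩ := (Finset.mem_filter.1 hy).2
      exact hj x0 j hj1
    rw [Finset.sum_congr rfl h2, Finset.sum_const, card_Rl hℓ he hm2, nsmul_eq_mul, ← mul_assoc,
      ← pow_add, Nat.add_sub_of_le (by omega)]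
    push_cast
    rfl
  have h0 := Finset.sum_partition S (s := s) (f := g)
  have key2 : ∀ q ∈ s.image (Quotient.mk S), ∃ r ∈ R,
      ∑ y ∈ s.filter (fun y => Quotient.mk S y = q), g y = (ℓ : ℂ) ^ (k + 1 - e) * r := by
    intro q hq
    obtain ⟨x0, hx0, rfl⟩ := Finset.mem_image.1 hq
    exact key x0 hx0
  choose! r hr1 hr2 using key2
  refine ⟨∑ q ∈ s.image (Quotient.mk S), r q, Subring.sum_mem _ fun q hq => hr1 q hq, ?_⟩
  rw [Finset.mul_sum, h0]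
  exact Finset.sum_congr rfl fun q hq => hr2 q hq

end orb

open Pool.Agent.PP.T8.H95 in
/-- AVZ -/
theorem avz : AvzStmt := by
  intro ℓ hℓ M hM hlM G _ _ N hGS V hP hV f hf hfN k W hW
  classical
  have hℓp : ℓ.Prime := hℓ.out
  haveI := finite_units V
  letI := Fintype.ofFinite (V →* ℂˣ)
  haveI := Fintype.ofFinite V
  have hep : 0 < ep ℓ := by
    unfold ep
    split_ifs <;> omega
  -- the exponent
  obtain ⟨E, hE⟩ := (IsPGroup.iff_card (p := ℓ) (G := V)).1 hP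
  have hEV : ∀ v : V, v ^ ℓ ^ (E + ep ℓ) = 1 := by
    intro v
    rw [pow_add, pow_mul, ← hE, pow_card_eq_one', one_pow]
  have hEX : ∀ χ : V →* ℂˣ, χ ^ ℓ ^ (E + ep ℓ) = 1 := by
    intro χ
    ext v
    rw [MonoidHom.pow_apply, ← map_pow, hEV, map_one, MonoidHom.one_apply]
  -- invariance of the coefficients
  have hfk : ∀ n : ℕ, ∀ v ∈ V, f (v ^ N ^ n) = f v := by
    intro n
    induction n with
    | zero => intro v _; rw [pow_zero, pow_one]
    | succ n ih =>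
      intro v hv
      rw [pow_succ, pow_mul, hfN _ (V.pow_mem hv _), ih v hv]
  have hc : ∀ χ : V →* ℂˣ, ∀ j, j ≡ 1 [MOD ℓ ^ ep ℓ] → cu V f (χ ^ j) = cu V f χ := by
    intro χ j hj
    have hcop : Nat.Coprime ℓ j := (cop_of hep hj).symm
    obtain ⟨n, hn⟩ := hGS.gen 1 j (by
      intro h
      exact hℓp.one_lt.ne' (Nat.dvd_one.1 h)) hj.symm
    refine cu_pow (by rw [hE]; exact hcop.pow_left E) (fun v hv => ?_) χ
    have hEl : El ℓ v := by
      refine ⟨E + ep ℓ, ?_⟩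
      have := hEV ⟨v, hv⟩
      exact congrArg (fun x : V => (x : G)) this
    have h2 := hn v hEl
    rw [pow_one] at h2
    rw [← h2, hfk n v hv]
  have hcRM : ∀ χ, cu V f χ ∈ RM M := fun χ => hf _
  -- the average
  have hW1 : ∀ x, x ∈ W ↔ ∃ v ∈ V, x = v ^ ℓ ^ k := by
    intro x
    rw [hW]
    exact H77.mem_uw hV
  have hW2 : W ≤ V := by
    rw [hW]
    exact H77.uw_le hV _
  have hA : (Nat.card W : ℂ)⁻¹ * ∑ᶠ w : W, f w =
      ∑ χ ∈ Finset.univ.filter (fun χ : V →* ℂˣ => χ ^ ℓ ^ k = 1), cu V f χ := by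
    haveI := Fintype.ofFinite W
    rw [finsum_eq_sum_of_fintype]
    have h1 : ∀ w : W, f w = ∑ χ : V →* ℂˣ, cu V f χ * (χ ⟨w, hW2 w.2⟩ : ℂ) := by
      intro w
      exact inv_units hV f (⟨w, hW2 w.2⟩ : V)
    rw [Finset.sum_congr rfl fun w _ => h1 w, Finset.sum_comm, Finset.mul_sum, Finset.sum_filter]
    refine Finset.sum_congr rfl fun χ _ => ?_
    rw [← Finset.mul_sum]
    have hcard : (Nat.card W : ℂ) ≠ 0 := by
      have : 0 < Nat.card W := Nat.card_pos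
      exact_mod_cast this.ne'
    let ψ : W →* ℂ := (Units.coeHom ℂ).comp (χ.comp (Subgroup.inclusion hW2))
    have h4 : ∑ w : W, (χ ⟨w, hW2 w.2⟩ : ℂ) = ∑ w : W, ψ w := rfl
    rw [h4, sum_hom_units ψ]
    have h5 : ψ = 1 ↔ χ ^ ℓ ^ k = 1 := by
      constructor
      · intro h
        ext v
        have h6 : (v : G) ^ ℓ ^ k ∈ W := (hW1 _).2 ⟨v, v.2, rfl⟩
        have h7 := DFunLike.congr_fun h ⟨(v : G) ^ ℓ ^ k, h6⟩
        have h8 : ψ ⟨(v : G) ^ ℓ ^ k, h6⟩ = (χ (v ^ ℓ ^ k) : ℂ) := rfl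
        rw [h8, map_pow] at h7
        rw [MonoidHom.pow_apply]
        exact h7
      · intro h
        ext w
        obtain ⟨v, hv, hwv⟩ := (hW1 w).1 w.2
        have h7 : Subgroup.inclusion hW2 w = (⟨v, hv⟩ : V) ^ ℓ ^ k := by
          ext
          exact hwv
        show ((χ (Subgroup.inclusion hW2 w) : ℂˣ) : ℂ) = 1
        rw [h7, map_pow, ← MonoidHom.pow_apply, h, MonoidHom.one_apply, Units.val_one]
    by_cases h6 : χ ^ ℓ ^ k = 1
    · rw [if_pos h6, if_pos (h5.2 h6), ← Nat.card_eq_fintype_card]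
      field_simp
    · rw [if_neg h6, if_neg (fun h => h6 (h5.1 h))]
      push_cast
      ring
  refine ⟨?_, ?_⟩
  · rw [hA]
    exact Subring.sum_mem _ fun χ _ => hcRM χ
  · have h1 : f 1 = ∑ χ : V →* ℂˣ, cu V f χ := by
      have h3 := inv_units hV f (1 : V)
      rw [Subgroup.coe_one] at h3
      rw [h3]
      refine Finset.sum_congr rfl fun χ _ => ?_
      rw [map_one, Units.val_one, mul_one]
    have h2 : f 1 - (Nat.card W : ℂ)⁻¹ * ∑ᶠ w : W, f w =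
        ∑ χ ∈ Finset.univ.filter (fun χ : V →* ℂˣ => χ ^ ℓ ^ k ≠ 1), cu V f χ := by
      rw [hA, h1, ← Finset.sum_filter_add_sum_filter_not Finset.univ
        (fun χ : V →* ℂˣ => χ ^ ℓ ^ k = 1)]
      ring
    have hq1 := orb (X := V →* ℂˣ) (RM M) (E := E + ep ℓ) (e := ep ℓ) hℓp hep
      (Nat.le_add_left (ep ℓ) E) hEX (cu V f)
    obtain ⟨r, hr, h3⟩ := hq1 hcRM hc k
    rw [h2, h3, mul_comm, mul_div_assoc,
      div_self (pow_ne_zero _ (Nat.cast_ne_zero.2 hℓp.ne_zero)), mul_one]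
    exact hr

end Pool.Agent.PP.TB.H31
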