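import Pool.Agent.ATZ.Stmts1

/-! Squad ATZ, row GIZ: the entries of the projection are rational integers, up to the factor
`iz/|V|`. -/

set_option autoImplicit false

open scoped BigOperators

noncomputable section

namespace Pool.Agent.PP.TB.H31

open Pool.Agent.Helper51_AWC Pool.Agent.Helper79_WRA Pool.Agent.PP Pool.Agent.PP.KF
open Pool.Agent.PP.K9 Pool.Agent.PP.K9.H97 Pool.Agent.PP.H75 Pool.Agent.PP.T3 Pool.Agent.PP.T2
open Pool.Agent.PP.T5

attribute [local instance] Ideal.Quotient.field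

/-- a weighted sum over the classes of an equivalence relation -/
theorem class_sum {α : Type} [Fintype α] (s : Setoid α) (c : α → ℕ) (F : α → ℂ) (I : ℕ)
    (hc : ∀ x y, s.r x y → c x = c y) (hF : ∀ x y, s.r x y → F x = F y)
    (hI : ∀ x, c x * {y | s.r x y}.ncard = I) (A : AddSubgroup ℂ) (hA : ∀ x, F x ∈ A) :
    ∃ S ∈ A, ∑ x, (c x : ℂ) * F x = (I : ℂ) * S := by
  classical
  have h1 : ∑ x, (c x : ℂ) * F x =
      ∑ q : Quotient s, ∑ x ∈ Finset.univ.filter (fun x => (Quotient.mk s x) = q),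
        (c x : ℂ) * F x :=
    (Finset.sum_fiberwise Finset.univ (fun x => Quotient.mk s x) _).symm
  refine ⟨∑ q : Quotient s, F q.out, AddSubgroup.sum_mem _ fun q _ => hA _, ?_⟩
  rw [h1, Finset.mul_sum]
  refine Finset.sum_congr rfl fun q _ => ?_
  have h2 : ∀ x ∈ Finset.univ.filter (fun x => (Quotient.mk s x) = q),
      (c x : ℂ) * F x = (c q.out : ℂ) * F q.out := by
    intro x hx
    have h3 : s.r x q.out := by
      apply Quotient.exact
      rw [(Finset.mem_filter.1 hx).2, Quotient.out_eq]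
    rw [hc _ _ h3, hF _ _ h3]
  rw [Finset.sum_congr rfl h2, Finset.sum_const, nsmul_eq_mul]
  have h4 : (Finset.univ.filter (fun x => (Quotient.mk s x) = q)).card =
      {y | s.r q.out y}.ncard := by
    rw [← Set.ncard_coe_finset]
    congr 1
    ext x
    rw [Finset.coe_filter]
    constructor
    · intro hx
      apply Quotient.exact
      rw [hx.2, Quotient.out_eq]
    · intro hx
      refine ⟨Finset.mem_univ _, ?_⟩
      have h5 : Quotient.mk s q.out = Quotient.mk s x := Quotient.sound hx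
      rw [← h5, Quotient.out_eq]
  rw [h4, ← hI q.out]
  push_cast
  ring

/-- the sums of the powers of a root of unity -/
theorem geom_int {η : ℂ} {n : ℕ} (hη : η ^ n = 1) :
    ∃ k : ℤ, ∑ j ∈ Finset.range n, η ^ j = k := by
  by_cases h : η = 1
  · refine ⟨n, ?_⟩
    simp [h]
  · refine ⟨0, ?_⟩
    rw [geom_sum_eq h, hη]
    simp

theorem ram_int {ℓ a : ℕ} (hp : ℓ.Prime) (ha : 0 < a) {ζ : ℂ} (hζ : ζ ^ ℓ ^ a = 1) (i : ℕ) :
    ∃ k : ℤ, ∑ j ∈ (Finset.range (ℓ ^ a)).filter (fun j => ¬ ℓ ∣ j), ζ ^ (i * j) = k := by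
  classical
  have h1 : ∑ j ∈ (Finset.range (ℓ ^ a)).filter (fun j => ¬ ℓ ∣ j), ζ ^ (i * j) =
      ∑ j ∈ Finset.range (ℓ ^ a), (ζ ^ i) ^ j -
        ∑ j ∈ Finset.range (ℓ ^ (a - 1)), (ζ ^ (i * ℓ)) ^ j := by
    have h2 := Finset.sum_filter_add_sum_filter_not (Finset.range (ℓ ^ a)) (fun j => ℓ ∣ j)
      (fun j => ζ ^ (i * j))
    have h3 : ∑ j ∈ (Finset.range (ℓ ^ a)).filter (fun j => ℓ ∣ j), ζ ^ (i * j) =
        ∑ j ∈ Finset.range (ℓ ^ (a - 1)), (ζ ^ (i * ℓ)) ^ j := by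
      symm
      refine Finset.sum_bij (fun j _ => ℓ * j) ?_ ?_ ?_ ?_
      · intro j hj
        rw [Finset.mem_filter, Finset.mem_range]
        refine ⟨?_, dvd_mul_right _ _⟩
        have h4 : ℓ ^ a = ℓ * ℓ ^ (a - 1) := by
          rw [← pow_succ']
          congr 1
          omega
        rw [h4]
        exact Nat.mul_lt_mul_of_pos_left (Finset.mem_range.1 hj) hp.pos
      · intro j _ j' _ h
        exact Nat.eq_of_mul_eq_mul_left hp.pos h
      · intro j hj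
        rw [Finset.mem_filter, Finset.mem_range] at hj
        obtain ⟨j', rfl⟩ := hj.2
        refine ⟨j', ?_, rfl⟩
        rw [Finset.mem_range]
        have h4 : ℓ ^ a = ℓ * ℓ ^ (a - 1) := by
          rw [← pow_succ']
          congr 1
          omega
        rw [h4] at hj
        exact Nat.lt_of_mul_lt_mul_left hj.1
      · intro j _
        rw [← pow_mul]
        congr 1
        ring
    have h5 : ∑ j ∈ Finset.range (ℓ ^ a), (ζ ^ i) ^ j = ∑ j ∈ Finset.range (ℓ ^ a), ζ ^ (i * j) :=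
      Finset.sum_congr rfl fun j _ => (pow_mul _ _ _).symm
    rw [h5, ← h2, h3]
    ring
  obtain ⟨k, hk⟩ := geom_int (η := ζ ^ i) (n := ℓ ^ a) (by
    rw [← pow_mul, mul_comm, pow_mul, hζ, one_pow])
  obtain ⟨k', hk'⟩ := geom_int (η := ζ ^ (i * ℓ)) (n := ℓ ^ (a - 1)) (by
    rw [← pow_mul]
    have h4 : i * ℓ * ℓ ^ (a - 1) = ℓ ^ a * i := by
      have h4 : ℓ ^ a = ℓ * ℓ ^ (a - 1) := by
        rw [← pow_succ']
        congr 1
        omega
      rw [h4]
      ring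
    rw [h4, pow_mul, hζ, one_pow])
  refine ⟨k - k', ?_⟩
  rw [h1, hk, hk']
  push_cast
  rfl

/-- a rational algebraic integer is an integer -/
theorem int_of_mul {x : ℂ} (hx : IsIntegral ℤ x) {n : ℕ} (hn : 0 < n) {k : ℤ}
    (h : (n : ℂ) * x = k) : ∃ m : ℤ, x = m := by
  have hn' : (n : ℂ) ≠ 0 := by exact_mod_cast hn.ne'
  have h1 : x = algebraMap ℚ ℂ ((k : ℚ) / n) := by
    have h2 : x = (k : ℂ) / n := by
      rw [← h]
      field_simp
    rw [h2]
    simp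
  rw [h1] at hx
  have h3 : IsIntegral ℤ ((k : ℚ) / n) :=
    (isIntegral_algebraMap_iff (algebraMap ℚ ℂ).injective).1 hx
  obtain ⟨m, hm⟩ := (IsIntegrallyClosed.isIntegral_iff (R := ℤ) (K := ℚ)).1 h3
  refine ⟨m, ?_⟩
  rw [h1, ← hm]
  simp

/-- the additive group of the algebraic integers -/
def AI : AddSubgroup ℂ := (integralClosure ℤ ℂ).toSubring.toAddSubgroup

theorem mem_AI {x : ℂ} : x ∈ AI ↔ IsIntegral ℤ x := Iff.rfl

/-- GIZ -/
theorem giz (zcp : ZcpStmt) (zin : ZinStmt) : GizStmt := by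
  intro ℓ hfact M _ hM G _ _ e V Z γ b hZ W hWZ hWT χ hχ ψ hψ
  classical
  have hp : ℓ.Prime := Fact.out
  have := Fintype.ofFinite G
  have := Fintype.ofFinite W
  obtain ⟨c1, c2, c3, c4, c5, c6, c7⟩ := zcp ℓ M hM G e V Z γ b hZ
  obtain ⟨F, hF⟩ : ∃ F : W → ℂ, F = fun w : W =>
    (Nat.card V : ℂ) * mm M ℓ (Cu (w : G)) w (b w) χ ψ := ⟨_, rfl⟩
  have hFe : ∀ w : W, F w = (Nat.card V : ℂ) * mm M ℓ (Cu (w : G)) w (b w) χ ψ := by
    intro w
    rw [hF]
  have hWp : IsPGroup ℓ W := by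
    have h1 : IsPGroup ℓ V := hZ.tp.1
    have h2 : IsPGroup ℓ (W : Subgroup G) := h1.to_le (hWZ.trans hZ.le)
    exact h2
  obtain ⟨a0, ha0⟩ := hWp.exists_card_eq
  have ha : 0 < a0 + 1 := Nat.succ_pos _
  have hpow : ∀ w : W, (w : G) ^ ℓ ^ (a0 + 1) = 1 := by
    intro w
    have h1 : w ^ Nat.card W = 1 := pow_card_eq_one'
    rw [ha0] at h1
    have h2 : (w : G) ^ ℓ ^ a0 = 1 := by
      rw [← Subgroup.coe_pow, h1, Subgroup.coe_one]
    rw [pow_succ, pow_mul, h2, one_pow]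
  have hζ := Complex.isPrimitiveRoot_exp (ℓ ^ (a0 + 1)) (Nat.pow_pos hp.pos).ne'
  generalize Complex.exp (2 * Real.pi * Complex.I / ((ℓ ^ (a0 + 1) : ℕ) : ℂ)) = ζ at hζ
  have hin : ∀ w : W, ∃ m : ℕ → ℤ, ∀ j : ℕ, ¬ ℓ ∣ j →
      F (w ^ j) = ∑ i ∈ Finset.range (ℓ ^ (a0 + 1)), (m i : ℂ) * ζ ^ (i * j) := by
    intro w
    obtain ⟨m, hm⟩ := zin ℓ M hM G e V Z γ b hZ w (hWZ w.2) (a0 + 1) ha (hpow w) ζ hζ χ hχ ψ hψ
    refine ⟨m, fun j hj => ?_⟩
    rw [hFe, Subgroup.coe_pow]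
    exact hm j hj
  choose m hm using hin
  -- the values are algebraic integers
  have hζi : IsIntegral ℤ ζ := hζ.isIntegral (Nat.pow_pos hp.pos)
  have hAI : ∀ w : W, F w ∈ AI := by
    intro w
    have h1 := hm w 1 (fun h => hp.one_lt.ne' (Nat.dvd_one.1 h))
    rw [pow_one] at h1
    rw [h1]
    refine AddSubgroup.sum_mem _ fun i _ => mem_AI.2 ?_
    exact (isIntegral_algebraMap (R := ℤ) (A := ℂ) (x := m w i)).mul (hζi.pow _)
  -- the orbits
  let s : Setoid W :=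
    { r := fun x y => ∃ t ∈ Tg V γ, (y : G) = t * (x : G) * t⁻¹
      iseqv :=
        { refl := fun x => ⟨1, (Tg V γ).one_mem, by simp⟩
          symm := by
            rintro x y ⟨t, ht, h⟩
            exact ⟨t⁻¹, (Tg V γ).inv_mem ht, by rw [h]; group⟩
          trans := by
            rintro x y z ⟨t, ht, h⟩ ⟨t', ht', h'⟩
            exact ⟨t' * t, (Tg V γ).mul_mem ht' ht, by rw [h', h]; group⟩ } }
  obtain ⟨S, hS, hSe⟩ := class_sum s (fun w : W => cz V Z γ (w : G)) F (iz V Z γ)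
    (by
      rintro x y ⟨t, ht, h⟩
      show cz V Z γ (x : G) = cz V Z γ (y : G)
      rw [h, (c1 x (hWZ x.2) t ht).2.1])
    (by
      rintro x y ⟨t, ht, h⟩
      rw [hFe, hFe, h, (c1 x (hWZ x.2) t ht).2.2 χ hχ ψ hψ])
    (by
      intro x
      rw [← c3 x (hWZ x.2)]
      show cz V Z γ (x : G) * _ = _
      congr 1
      have h1 : {y : G | ∃ t ∈ Tg V γ, y = t * (x : G) * t⁻¹} =
          (fun y : W => (y : G)) '' {y : W | s.r x y} := by
        ext y
        constructor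
        · rintro ⟨t, ht, h⟩
          have hy : y ∈ W := by
            rw [h]
            exact hWT t ht x x.2
          exact ⟨⟨y, hy⟩, ⟨t, ht, h⟩, rfl⟩
        · rintro ⟨y', ⟨t, ht, h⟩, rfl⟩
          exact ⟨t, ht, h⟩
      rw [h1, Set.ncard_image_of_injective _ Subtype.coe_injective]) AI hAI
  -- the sum
  have hPw : (Nat.card V : ℂ) * Pw M ℓ V Z W γ b χ ψ =
      ∑ w : W, (cz V Z γ (w : G) : ℂ) * F w := by
    rw [Pw, finsum_eq_sum_of_fintype, Finset.mul_sum]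
    refine Finset.sum_congr rfl fun w _ => ?_
    rw [hFe]
    ring
  -- rationality
  have hj : ∀ j : ℕ, ¬ ℓ ∣ j → ∑ w : W, (cz V Z γ (w : G) : ℂ) * F w =
      ∑ w : W, (cz V Z γ (w : G) : ℂ) * F (w ^ j) := by
    intro j hj
    have hco : (Nat.card W).Coprime j := by
      rw [ha0]
      exact Nat.Coprime.pow_left _ ((Nat.Prime.coprime_iff_not_dvd hp).2 hj)
    symm
    refine Fintype.sum_equiv (powCoprime hco) _ _ fun w => ?_
    rw [powCoprime_apply, Subgroup.coe_pow, (c2 w (hWZ w.2) j hj).2.2]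
  have hrat : ∃ k : ℤ, ((((Finset.range (ℓ ^ (a0 + 1))).filter (fun j => ¬ ℓ ∣ j)).card *
      iz V Z γ : ℕ) : ℂ) * S = k := by
    have h1 : ∀ w : W, ∃ k : ℤ, ∑ j ∈ (Finset.range (ℓ ^ (a0 + 1))).filter (fun j => ¬ ℓ ∣ j),
        F (w ^ j) = k := by
      intro w
      choose r hr using fun i => ram_int hp ha hζ.pow_eq_one i
      refine ⟨∑ i ∈ Finset.range (ℓ ^ (a0 + 1)), m w i * r i, ?_⟩
      rw [Finset.sum_congr rfl fun j hj => hm w j (Finset.mem_filter.1 hj).2, Finset.sum_comm]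
      push_cast
      refine Finset.sum_congr rfl fun i _ => ?_
      rw [← hr i, Finset.mul_sum]
    choose k hk using h1
    refine ⟨∑ w : W, (cz V Z γ (w : G) : ℤ) * k w, ?_⟩
    have h2 : ((((Finset.range (ℓ ^ (a0 + 1))).filter (fun j => ¬ ℓ ∣ j)).card *
        iz V Z γ : ℕ) : ℂ) * S =
        ∑ j ∈ (Finset.range (ℓ ^ (a0 + 1))).filter (fun j => ¬ ℓ ∣ j),
          ∑ w : W, (cz V Z γ (w : G) : ℂ) * F (w ^ j) := by
      rw [← Finset.sum_congr rfl fun j hj' => hj j (Finset.mem_filter.1 hj').2, Finset.sum_const,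
        nsmul_eq_mul, hSe]
      push_cast
      ring
    rw [h2, Finset.sum_comm]
    push_cast
    refine Finset.sum_congr rfl fun w _ => ?_
    rw [← hk w, Finset.mul_sum]
  obtain ⟨k, hk⟩ := hrat
  have hpos : 0 < ((Finset.range (ℓ ^ (a0 + 1))).filter (fun j => ¬ ℓ ∣ j)).card * iz V Z γ := by
    refine Nat.mul_pos (Finset.card_pos.2 ⟨1, ?_⟩) c4
    rw [Finset.mem_filter, Finset.mem_range]
    exact ⟨Nat.one_lt_pow (Nat.succ_ne_zero _) hp.one_lt,
      fun h => hp.one_lt.ne' (Nat.dvd_one.1 h)⟩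
  obtain ⟨n, hn⟩ := int_of_mul (mem_AI.1 hS) hpos hk
  refine ⟨n, ?_⟩
  rw [hPw, hSe, hn]

end Pool.Agent.PP.TB.H31
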